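import Pool.Agent.H44.KR.Targets
import Pool.Agent.H20.KR.CAN

/-!
# From graded structures to configurations
-/

set_option autoImplicit false
set_option linter.unusedVariables false

namespace Pool.Agent.H54.KR

open Pool.Agent.H68.BP Pool.Agent.H58.SF Pool.Agent.H53.NR Pool.Agent.H53.GM Pool.Agent.H44.KR
open Pool.Agent.H57.LCI (LocalCompletions Pre Realizes)
open Pool.Agent.H57.AR (tp ty)
open Pool.Agent.H57.EQ (Cx)
open Function
open Classical

section

variable {V : Type} {ρ : Sig} {L : ℕ}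

/-- the graded structure of a set of elements at places -/
def gs (𝔹 : Str ρ V) (L : ℕ) (S : Set (Pl L × V)) : GS ρ L S :=
  ⟨fun x => x.1.1, fun g => ∀ x ∈ g, ∀ y ∈ g, Adj (reg x.1.1) (reg y.1.1),
    fun l z => 𝔹 l (fun i => (z i).1.2)⟩

theorem adj_refl (a : Rg L) : Adj a a := by
  refine ⟨Nat.le_succ _, Nat.le_succ _, fun q q' h h' => ?_⟩
  rw [h] at h'
  injection h' with h1
  injection h1 with h2
  rw [h2]

theorem gs_sg (𝔹 : Str ρ V) (S : Set (Pl L × V)) : (gs 𝔹 L S).Sg := by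
  intro x y hy z hz
  rw [Finset.mem_singleton] at hy hz
  rw [hy, hz]
  exact adj_refl _

theorem gs_good (𝔹 : Str ρ V) (S : Set (Pl L × V))
    (h : ∀ Z, ∀ x ∈ S, ∀ y ∈ S, inSh Z x.1 → inSh Z y.1 → x.2 = y.2 → x.1 = y.1) :
    Good 𝔹 (gs 𝔹 L S) := by
  refine ⟨fun g g' hg hgg x hx y hy => hg x (hgg hx) y (hgg hy), fun g hg => hg, fun Z => ?_⟩
  refine ⟨fun x => x.1.2, fun g hg => ⟨fun x hx y hy hxy => ?_, fun l z hz => Iff.rfl⟩⟩
  have h1 : x.1.1 = y.1.1 := h Z x.1 x.2 y.1 y.2 hx.2 hy.2 hxy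
  exact Subtype.ext (Prod.ext h1 hxy)

theorem kd_val (𝔹 : Str ρ V) (S : Set (Pl L × V)) (rk : Pl L × V → ℕ) {J : Type} (a' : J → S)
    (a : J → Pl L × V) (h : ∀ j, (a' j).1 = a j) :
    H44.KR.kd (gs 𝔹 L S).pl (gs 𝔹 L S).st (fun x => rk x.1) a' = kv 𝔹 rk a := by
  obtain rfl : (fun j => (a' j).1) = a := funext h
  refine Prod.ext rfl (Prod.ext ?_ rfl)
  funext i j
  exact propext Subtype.ext_iff

end

theorem pf_CNV : T_CNV := by
  intro V σ ρ 𝔸 𝔹 L Φ hne hL hT hV
  refine ⟨?_, ?_⟩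
  · intro r W _ b rk hC
    rcases isEmpty_or_nonempty W with hE | hN
    · refine ⟨fun w => isEmptyElim w, ?_, fun w => isEmptyElim w⟩
      intro l z hz
      have e : (fun a => (fun w : W => (isEmptyElim w : V)) (z a)) = fun a => (b (z a) 0).2 :=
        funext fun a => isEmptyElim (z a)
      rw [e]
      exact hz 0
    let S : Set (Pl L × V) := Set.range (fun q : W × Fin 6 => b q.1 q.2)
    haveI hSf : Finite S := Set.finite_range _
    haveI hSn : Nonempty S := ⟨⟨b hN.some 0, (hN.some, 0), rfl⟩⟩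
    let b' : W → Fin 6 → S := fun w c => ⟨b w c, (w, c), rfl⟩
    have hG : Good 𝔹 (gs 𝔹 L S) := by
      refine gs_good 𝔹 S ?_
      rintro Z _ ⟨⟨w, c⟩, rfl⟩ _ ⟨⟨w', c'⟩, rfl⟩ h1 h2 h3
      exact hC.inj Z w w' c c' h1 h2 h3
    have hrk : Injective (fun x : S => rk x.1) := by
      rintro ⟨_, ⟨⟨w, c⟩, rfl⟩⟩ ⟨_, ⟨⟨w', c'⟩, rfl⟩⟩ h
      exact Subtype.ext (hC.rk (w, c) (w', c') h)
    obtain ⟨u, hu, hval⟩ :=
      (hV S (gs 𝔹 L S) (fun x => rk x.1) (Nat.card W) hG (gs_sg 𝔹 S) hrk).out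
    obtain ⟨ψ, hψ, hψv⟩ := hval W b' le_rfl
    refine ⟨ψ, ?_, ?_⟩
    · intro l z hz
      refine hψ l z (fun c => ?_)
      refine hT l (fun a => (b (z a) c).2) (fun a => u c (b' (z a) c)) (hz c) ?_
      -- the guard
      have hfw : Fintype W := Fintype.ofFinite W
      have hgd : (gs 𝔹 L S).gd (Finset.univ.image (fun w => b' w c)) := by
        intro x hx y hy
        obtain ⟨w, -, rfl⟩ := Finset.mem_image.1 hx
        obtain ⟨w', -, rfl⟩ := Finset.mem_image.1 hy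
        exact hC.adj w w' c
      have hR := hu.rz _ hgd r c
      have hm : ∀ w, b' w c ∈ {x | x ∈ Finset.univ.image (fun w => b' w c) ∧
          At r c ((gs 𝔹 L S).pl x)} := fun w =>
        ⟨Finset.mem_image_of_mem _ (Finset.mem_univ w), hC.pos w c⟩
      refine Prod.ext ?_ ?_
      · funext i j
        refine propext ⟨fun h => ?_, fun h => ?_⟩
        · have h1 : b' (z i) c = b' (z j) c := hR.1 _ (hm (z i)) _ (hm (z j)) h
          exact congrArg (fun x : S => x.1.2) h1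
        · have h0 : (b (z i) c).2 = (b (z j) c).2 := h
          obtain ⟨Z, hZ⟩ := H20.KR.sheet_of_at hL r c
            (fun k : Fin 2 => (b (if k = 0 then z i else z j) c).1)
            (fun k => hC.pos _ c) (fun k k' => hC.adj _ _ c)
          have h1 : (b (z i) c).1 = (b (z j) c).1 :=
            hC.inj Z (z i) (z j) c c (hZ 0) (hZ 1) h0
          have h2 : b (z i) c = b (z j) c := Prod.ext h1 h0
          have h3 : b' (z i) c = b' (z j) c := Subtype.ext h2
          show u c (b' (z i) c) = u c (b' (z j) c)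
          rw [h3]
      · funext l' z'
        exact propext (hR.2 l' (fun i => b' (z (z' i)) c) (fun i => hm _))
    · intro w w' hAd
      have htup : (gs 𝔹 L S).tup (Sum.elim (b' w) (b' w')) := by
        have hval' : ∀ j, (Sum.elim (b' w) (b' w') j).1 = Sum.elim (b w) (b w') j := by
          rintro (j | j) <;> rfl
        refine ⟨Finset.univ.image (Sum.elim (b' w) (b' w')), ?_,
          fun j => Finset.mem_image_of_mem _ (Finset.mem_univ j)⟩
        intro x hx y hy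
        obtain ⟨i, -, rfl⟩ := Finset.mem_image.1 hx
        obtain ⟨j, -, rfl⟩ := Finset.mem_image.1 hy
        rw [hval', hval']
        exact hAd i j
      rw [hψv w w' htup, kd_val 𝔹 S rk _ (Sum.elim (b w) (b w')) (by rintro (j | j) <;> rfl)]
  · intro r x rk hrkI
    let S : Set (Pl L × V) :=
      Set.range (fun q : Fin 2 × Fin 2 => ((Sum.inr (Sum.inr q.2) : Pl L), x q.1 q.2))
    haveI hSf : Finite S := Set.finite_range _
    haveI hSn : Nonempty S := ⟨⟨(Sum.inr (Sum.inr 0), x 0 0), (0, 0), rfl⟩⟩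
    let x' : Fin 2 → Fin 2 → S := fun i d => ⟨(Sum.inr (Sum.inr d), x i d), (i, d), rfl⟩
    have hG : Good 𝔹 (gs 𝔹 L S) := by
      refine gs_good 𝔹 S ?_
      rintro Z _ ⟨⟨i, d⟩, rfl⟩ _ ⟨⟨i', d'⟩, rfl⟩ h1 h2 h3
      match Z, h1, h2 with
      | Sum.inl c, h1, _ => exact False.elim h1
      | Sum.inr e, h1, h2 =>
        have h4 : d = e := h1
        have h5 : d' = e := h2
        show (Sum.inr (Sum.inr d) : Pl L) = Sum.inr (Sum.inr d')
        rw [h4, h5]
    have hrk : Injective (fun y : S => rk y.1) := by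
      rintro ⟨_, ⟨⟨i, d⟩, rfl⟩⟩ ⟨_, ⟨⟨i', d'⟩, rfl⟩⟩ h
      exact Subtype.ext (hrkI (i, d) (i', d') h)
    have hex := (hV S (gs 𝔹 L S) (fun y => rk y.1) 0 hG (gs_sg 𝔹 S) hrk).ex r x'
      ⟨Finset.univ.image (fun q : Fin 2 × Fin 2 => x' q.1 q.2), ?_, fun i d =>
        Finset.mem_image.2 ⟨(i, d), Finset.mem_univ _, rfl⟩⟩ (fun i d => rfl)
    · rw [kd_val 𝔹 S rk _ (Sum.elim (fun c => (Sum.inr (Sum.inr (lr r c)), x 0 (lr r c)))
          (fun c => (Sum.inr (Sum.inr (lr r c)), x 1 (lr r c)))) (by rintro (j | j) <;> rfl),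
        kd_val 𝔹 S rk _ (Sum.elim (fun c => (Sum.inr (Sum.inr (lr 0 c)), x 0 (lr 0 c)))
          (fun c => (Sum.inr (Sum.inr (lr 0 c)), x 1 (lr 0 c)))) (by rintro (j | j) <;> rfl)]
        at hex
      exact hex
    · intro y hy y' hy'
      obtain ⟨i, -, rfl⟩ := Finset.mem_image.1 hy
      obtain ⟨j, -, rfl⟩ := Finset.mem_image.1 hy'
      exact adj_refl _

end Pool.Agent.H54.KR
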